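import Pool.Agent.H933.LL.Stm9
import Pool.Agent.H662.LL.Whit4

/-!
# From averages over Whitney discs to integrability, local version

`p_whit5 (h : P_jen) : P_whit5`.
-/

set_option autoImplicit false

open MeasureTheory Metric Set
open scoped Real ENNReal

namespace Pool.Agent.H740.LL

open Pool.Agent.H933.LL Pool.Agent.H17.LL Pool.Agent.H662.LL

/-- the lower bound for the integral over `z` -/
lemma int_zl (E : Set ℂ) (hE : IsClosed E) (hne : E.Nonempty) (l : ℂ) (r H : ℝ) (hr : 0 < r)
    (hH : infDist l E + r ≤ H) (w : ℂ) (hw : w ∈ ball l (r / 2)) (hwE : w ∉ E) :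
    ENNReal.ofReal ((r / (8 * H)) ^ 2) ≤ ∫⁻ z in ball l r, kr E z w := by
  have hd0 : 0 ≤ infDist l E := infDist_nonneg
  have hH1 : r ≤ H := by linarith
  have hH0 : 0 < H := by linarith
  set d := infDist w E with hd
  have hdpos : 0 < d := (hE.notMem_iff_infDist_pos hne).1 hwE
  have hdw : dist w l < r / 2 := hw
  have hdH : d ≤ H := by
    have h1 : d ≤ infDist l E + dist w l := infDist_le_infDist_add_dist
    linarith
  set k := r / (8 * H) with hk
  have hk0 : 0 < k := by positivity
  have hkd1 : k * d ≤ r / 8 := by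
    rw [hk, div_mul_eq_mul_div, div_le_div_iff₀ (by positivity) (by norm_num)]
    nlinarith
  have hkd2 : k * d ≤ d / 8 := by
    rw [hk, div_mul_eq_mul_div, div_le_div_iff₀ (by positivity) (by norm_num)]
    nlinarith
  have hz : ∀ z ∈ ball w (k * d), z ∈ ball l r ∧ (z, w) ∈ SW E ∧
      infDist z E ^ 2 ≤ (9 / 8 * d) ^ 2 := by
    intro z hz
    have h1 : dist z w < k * d := hz
    have h2 : d ≤ infDist z E + dist w z := infDist_le_infDist_add_dist
    have h3 : infDist z E ≤ d + dist z w := infDist_le_infDist_add_dist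
    have h4 : dist w z = dist z w := dist_comm _ _
    refine ⟨?_, ?_, ?_⟩
    · have h5 : dist z l ≤ dist z w + dist w l := dist_triangle _ _ _
      rw [mem_ball]
      linarith
    · change dist w z < infDist z E / 4
      linarith
    · exact pow_le_pow_left₀ infDist_nonneg (by linarith) 2
  have hd9 : 0 < (9 / 8 * d) ^ 2 := by positivity
  have ha : ENNReal.ofReal ((9 / 8 * d) ^ 2) ≠ 0 := by
    rw [Ne, ENNReal.ofReal_eq_zero, not_le]
    exact hd9
  calc ENNReal.ofReal (k ^ 2)
      ≤ (ENNReal.ofReal ((9 / 8 * d) ^ 2))⁻¹ * volume (ball w (k * d)) := by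
        refine le_inv_mul ha ENNReal.ofReal_ne_top ?_
        rw [vol w (by positivity), ← ENNReal.ofReal_mul (by positivity)]
        refine ENNReal.ofReal_le_ofReal ?_
        have h1 := Real.pi_gt_three
        have h2 : 0 ≤ (k * d) ^ 2 := by positivity
        nlinarith
    _ = ∫⁻ _ in ball w (k * d), (ENNReal.ofReal ((9 / 8 * d) ^ 2))⁻¹ := by
        rw [setLIntegral_const]
    _ ≤ ∫⁻ z in ball w (k * d), kr E z w := by
        refine setLIntegral_mono' measurableSet_ball fun z hz' => ?_
        obtain ⟨-, h2, h3⟩ := hz z hz'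
        unfold kr
        rw [indicator_of_mem h2, mul_one]
        exact ENNReal.inv_le_inv.2 (ENNReal.ofReal_le_ofReal h3)
    _ ≤ ∫⁻ z in ball l r, kr E z w :=
        lintegral_mono_set fun z hz' => (hz z hz').1

lemma fin_int5 (E : Set ℂ) (g : ℂ → ℝ) (hg : ∀ w, 0 ≤ g w) (q : ℝ) (hq : 1 < q) (B : ℝ)
    (hB : 0 ≤ B) (l : ℂ) (r : ℝ)
    (hint1 : IntegrableOn (fun z : ℂ => g z ^ q) (ball l r))
    (hint : IntegrableOn (fun z : ℂ => (Real.posLog (infDist z E)⁻¹) ^ q) (ball l r)) :
    ∫⁻ z in ball l r, ENNReal.ofReal (B *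
      (1 + g z + Real.posLog (infDist z E)⁻¹) ^ q) < ⊤ := by
  have h1 : IntegrableOn (fun _ : ℂ => (1 : ℝ)) (ball l r) :=
    integrableOn_const (by rw [Complex.volume_ball]; finiteness)
  have h4 : IntegrableOn (fun z : ℂ => B * (3 ^ q *
      (1 + g z ^ q + (Real.posLog (infDist z E)⁻¹) ^ q))) (ball l r) :=
    Integrable.const_mul (Integrable.const_mul ((h1.add hint1).add hint) _) _
  refine lt_of_le_of_lt ?_ h4.lintegral_lt_top
  refine lintegral_mono fun z => ENNReal.ofReal_le_ofReal ?_
  exact mul_le_mul_of_nonneg_left (el_ineq4 _ _ q (hg z) Real.posLog_nonneg hq) hB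

theorem p_whit5 (h : P_jen) : P_whit5 := by
  intro x g0 E G q l r hq hr hx hx0 hE hne hE0 _ hg00 hint1 hint hmain
  obtain ⟨C, hC, hj⟩ := h q hq
  obtain ⟨C', hC'⟩ := hmain
  have hsub : ball l (r / 2) ⊆ ball l r := ball_subset_ball (by linarith)
  constructor
  · set g : ℂ → ℝ≥0∞ := fun w => ENNReal.ofReal ((Real.posLog (x w)) ^ q) with hg
    have hgm : Measurable g :=
      ((Real.continuous_posLog.measurable.comp hx).pow_const q).ennreal_ofReal
    have hpos : ∀ w, 0 ≤ (Real.posLog (x w)) ^ q := fun w =>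
      Real.rpow_nonneg Real.posLog_nonneg q
    refine ⟨((Real.continuous_posLog.measurable.comp hx).pow_const q).aestronglyMeasurable, ?_⟩
    rw [hasFiniteIntegral_iff_ofReal (Filter.Eventually.of_forall hpos)]
    set H := infDist l E + r with hH
    have hHpos : 0 < H := by
      have := infDist_nonneg (x := l) (s := E)
      linarith
    set c := ENNReal.ofReal ((r / (8 * H)) ^ 2) with hc
    have hc0 : c ≠ 0 := by
      rw [hc, Ne, ENNReal.ofReal_eq_zero, not_le]
      positivity
    have hEae : ∀ᵐ z ∂(volume : Measure ℂ), z ∉ E ∩ ball l r :=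
      measure_eq_zero_iff_ae_notMem.1 hE0
    have h2 := core (kr E) (meas_kr E) g hgm (ball l (r / 2)) (ball l r)
      measurableSet_ball measurableSet_ball c
      (hEae.mono fun w hw hwr => int_zl E hE hne l r H hr le_rfl w hwr
        (fun hwE => hw ⟨hwE, hsub hwr⟩))
      (fun z => ENNReal.ofReal (C * 2 * (|C'| + 2) ^ q *
          (1 + g0 z + Real.posLog (infDist z E)⁻¹) ^ q))
      (hEae.mono fun z hz hzr => by
        have hzE : z ∉ E := fun hzE => hz ⟨hzE, hzr⟩
        rw [int_w]
        exact pt4 q hq C hC hj x hx hx0 C' _ (g0 z) ((hE.notMem_iff_infDist_pos hne).1 hzE)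
          (hg00 z) z (hC' z hzr hzE).2)
    have h3 : ∫⁻ z in ball l r, ENNReal.ofReal (C * 2 * (|C'| + 2) ^ q *
          (1 + g0 z + Real.posLog (infDist z E)⁻¹) ^ q) < ⊤ :=
      fin_int5 E g0 hg00 q hq _ (by positivity) l r hint1 hint
    have h8 : c * ∫⁻ w in ball l (r / 2), g w < ⊤ := h2.trans_lt h3
    exact (ENNReal.mul_lt_top_iff.1 h8).elim (fun h => h.2) (fun h => by
      rcases h with h | h
      · exact absurd h hc0
      · rw [h]; exact ENNReal.zero_lt_top)
  · rw [ae_restrict_iff' measurableSet_ball, ae_iff]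
    have h1 : volume ({w | w ∉ G} ∩ ball l (r / 2) ∩ Eᶜ) = 0 := by
      refine measure_null_of_locally_null _ fun z hz => ?_
      obtain ⟨⟨hzG, hzr⟩, hzE⟩ := hz
      have hd : 0 < infDist z E := (hE.notMem_iff_infDist_pos hne).1 hzE
      have h2 := (hC' z (hsub hzr) hzE).1
      rw [ae_restrict_iff' measurableSet_ball, ae_iff] at h2
      refine ⟨ball z (infDist z E / 4) ∩ {w | w ∉ G}, ?_, ?_⟩
      · refine Filter.inter_mem (mem_nhdsWithin_of_mem_nhds (ball_mem_nhds _ (by positivity))) ?_
        exact Filter.mem_of_superset self_mem_nhdsWithin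
          (inter_subset_left.trans inter_subset_left)
      · refine measure_mono_null ?_ h2
        intro w hw
        simp only [Set.mem_ofPred_eq, Classical.not_imp]
        exact ⟨hw.1, hw.2⟩
    refine measure_mono_null ?_ (measure_union_null hE0 h1)
    intro w hw
    simp only [Set.mem_ofPred_eq, Classical.not_imp] at hw
    by_cases hwE : w ∈ E
    · exact Or.inl ⟨hwE, hsub hw.1⟩
    · exact Or.inr ⟨⟨hw.2, hw.1⟩, hwE⟩

end Pool.Agent.H740.LL
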